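import Pool.Agent.Lib.MP_75b31c_lc.N40.Iface
import Pool.Agent.Lib.MP_75b31c_lc.H40.MeasC

set_option autoImplicit false

/-!
# ENU: a computable list of string functionals for all reductions
-/

namespace Pool.Agent.Lib.MP_75b31c_lc.N40.H86

open Pool.Agent.Lib.MP_75b31c_lc.N40
open Nat.Partrec (Code)
open Encodable
open Pool.Agent.Lib.MP_f26228_lc (seg val val_primrec val_mono)
open Pool.Agent.Lib.MP_f7c71a_lc (oracle_code)
open Pool.Agent.Lib.MP_75b31c_lc.H40 (chi pre pre_length pre_take pre_succ nb)

/-- The answer of the code `c` on the string `ρ` to the question `n`. -/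
def ans (c : Code) (ρ : List Bool) (n : ℕ) : Option Bool :=
  (val c (ρ.map Bool.toNat) (encode n)).map fun v => decide (v = 1)

/-- The list of the first answers. -/
def lst (c : Code) (ρ : List Bool) (k : ℕ) : List Bool :=
  k.rec [] fun _ acc => acc ++ (ans c ρ acc.length).toList

/-- The string functional of the code `c`. -/
def psi (c : ℕ) (ρ : List Bool) : List Bool := lst (Denumerable.ofNat Code c) ρ ρ.length

theorem lst_succ (c : Code) (ρ : List Bool) (k : ℕ) :
    lst c ρ (k + 1) = lst c ρ k ++ (ans c ρ (lst c ρ k).length).toList := rfl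

theorem lst_length_le (c : Code) (ρ : List Bool) (k : ℕ) : (lst c ρ k).length ≤ k := by
  induction k with
  | zero => simp [lst]
  | succ k ih =>
    rw [lst_succ, List.length_append]
    have : (ans c ρ (lst c ρ k).length).toList.length ≤ 1 := by
      cases ans c ρ (lst c ρ k).length <;> simp
    omega

theorem lst_stop (c : Code) (ρ : List Bool) (k : ℕ) (h : (lst c ρ k).length < k) :
    ans c ρ (lst c ρ k).length = none := by
  induction k with
  | zero => simp at h
  | succ k ih =>
    rw [lst_succ] at h ⊢
    cases ha : ans c ρ (lst c ρ k).length with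
    | none => simpa using ha
    | some b =>
      rw [ha] at h
      have h1 : (lst c ρ k).length < k := by simpa using h
      rw [ih h1] at ha
      cases ha

theorem lst_get (c : Code) (ρ : List Bool) (k i : ℕ) (h : i < (lst c ρ k).length) :
    (lst c ρ k)[i]? = ans c ρ i := by
  induction k with
  | zero => simp [lst] at h
  | succ k ih =>
    rw [lst_succ] at h ⊢
    rcases Nat.lt_or_ge i (lst c ρ k).length with h1 | h1
    · rw [List.getElem?_append_left h1]
      exact ih h1
    · rw [List.getElem?_append_right h1]
      cases ha : ans c ρ (lst c ρ k).length with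
      | none =>
        rw [ha] at h
        simp at h
        omega
      | some b =>
        rw [ha] at h
        have h2 : i = (lst c ρ k).length := by
          simp at h
          omega
        rw [h2, ha]
        simp

theorem ans_mono {c : Code} {ρ ρ' : List Bool} (h : ρ <+: ρ') {n : ℕ} {b : Bool}
    (hb : ans c ρ n = some b) : ans c ρ' n = some b := by
  unfold ans at hb ⊢
  rw [Option.map_eq_some_iff] at hb ⊢
  obtain ⟨v, hv, hvb⟩ := hb
  exact ⟨v, val_mono (h.map _) hv, hvb⟩

theorem lst_mono {c : Code} {ρ ρ' : List Bool} (h : ρ <+: ρ') {k k' : ℕ} (hk : k ≤ k') :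
    lst c ρ k <+: lst c ρ' k' := by
  rw [List.prefix_iff_getElem?]
  intro i hi
  have h1 : ans c ρ i = some (lst c ρ k)[i] := by
    rw [← lst_get c ρ k i hi, List.getElem?_eq_getElem hi]
  rcases Nat.lt_or_ge i (lst c ρ' k').length with h2 | h2
  · rw [lst_get c ρ' k' i h2]
    exact ans_mono h h1
  · exfalso
    have h3 : (lst c ρ' k').length < (lst c ρ k).length := by omega
    have h4 := lst_length_le c ρ k
    have h5 := lst_stop c ρ' k' (by omega)
    have h6 : ans c ρ (lst c ρ' k').length = some (lst c ρ k)[(lst c ρ' k').length] := by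
      rw [← lst_get c ρ k _ h3, List.getElem?_eq_getElem h3]
    rw [ans_mono h h6] at h5
    cases h5

theorem ans_primrec : Primrec fun w : (Code × List Bool) × ℕ => ans w.1.1 w.1.2 w.2 := by
  unfold ans
  have h1 : Primrec fun w : (Code × List Bool) × ℕ => w.1.2.map Bool.toNat :=
    Primrec.list_map (Primrec.snd.comp Primrec.fst)
      ((Primrec.dom_finite Bool.toNat).comp Primrec.snd).to₂
  have h2 : Primrec fun w : (Code × List Bool) × ℕ =>
      val w.1.1 (w.1.2.map Bool.toNat) (encode w.2) :=
    val_primrec.comp (g := fun w : (Code × List Bool) × ℕ =>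
      ((w.1.1, w.1.2.map Bool.toNat), encode w.2))
      (Primrec.pair (Primrec.pair (Primrec.fst.comp Primrec.fst) h1)
        (Primrec.encode.comp Primrec.snd))
  refine Primrec.option_map h2 ?_
  exact (Primrec.eq.comp Primrec.snd (Primrec.const 1)).decide.to₂

theorem optList_primrec : Primrec (fun o : Option Bool => o.toList) :=
  Primrec.dom_finite _

theorem psi_primrec : Primrec₂ psi := by
  have h1 : Primrec fun w : (ℕ × List Bool) × (ℕ × List Bool) =>
      w.2.2 ++ (ans (Denumerable.ofNat Code w.1.1) w.1.2 w.2.2.length).toList := by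
    refine Primrec.list_append.comp (Primrec.snd.comp Primrec.snd) (optList_primrec.comp ?_)
    exact ans_primrec.comp (g := fun w : (ℕ × List Bool) × (ℕ × List Bool) =>
      ((Denumerable.ofNat Code w.1.1, w.1.2), w.2.2.length))
      (Primrec.pair (Primrec.pair ((Primrec.ofNat Code).comp (Primrec.fst.comp Primrec.fst))
        (Primrec.snd.comp Primrec.fst)) (Primrec.list_length.comp (Primrec.snd.comp Primrec.snd)))
  exact Primrec.nat_rec' (f := fun a : ℕ × List Bool => a.2.length) (g := fun _ => ([] : List Bool))
    (h := fun a (y : ℕ × List Bool) =>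
      y.2 ++ (ans (Denumerable.ofNat Code a.1) a.2 y.2.length).toList)
    (Primrec.list_length.comp Primrec.snd) (Primrec.const []) h1

theorem pre_get (y : ℕ → Bool) (L i : ℕ) (h : i < L) : (pre y L)[i]? = some (y i) := by
  simp [pre, h]

theorem enu : ENU_S := by
  refine ⟨psi, psi_primrec.to_comp, fun c => ⟨fun ρ ρ' h => lst_mono h h.length_le, ?_⟩, ?_⟩
  · exact (psi_primrec.comp (Primrec.const c) Primrec.id).to_comp
  · intro z y h
    obtain ⟨c, hc⟩ := oracle_code (nb z) (D := chi y) h
    have hans : ∀ t n b, ans c (pre z t) n = some b → b = y n := by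
      intro t n b hb
      unfold ans at hb
      rw [Option.map_eq_some_iff] at hb
      obtain ⟨v, hv, hvb⟩ := hb
      have e : (pre z t).map Bool.toNat = seg (nb z) t := by
        unfold pre seg nb
        rw [List.map_map]
        rfl
      rw [e] at hv
      obtain ⟨w, hw1, hw2⟩ := (hc n v).2 ⟨t, hv⟩
      have hw3 : w = (y n).toNat := by
        simpa [chi] using hw1
      rw [← hvb, ← hw2, hw3]
      cases y n <;> simp
    have hans' : ∀ n, ∃ t, ∀ t', t ≤ t' → ans c (pre z t') n ≠ none := by
      intro n
      obtain ⟨t, ht⟩ := (hc n (y n).toNat).1 ⟨(y n).toNat, by simp [chi], rfl⟩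
      refine ⟨t, fun t' htt' => ?_⟩
      have e : (pre z t).map Bool.toNat = seg (nb z) t := by
        unfold pre seg nb
        rw [List.map_map]
        rfl
      have h1 : ans c (pre z t) n = some (decide ((y n).toNat = 1)) := by
        unfold ans
        rw [e, show (encode n : ℕ) = n from rfl] at *
        rw [ht]
        rfl
      have h2 : pre z t <+: pre z t' := by
        rw [← pre_take z htt']
        exact List.take_prefix _ _
      rw [ans_mono h2 h1]
      simp
    refine ⟨encode c, ?_, ?_⟩
    · intro t
      unfold psi
      rw [Denumerable.ofNat_encode]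
      apply List.ext_getElem?
      intro i
      rcases Nat.lt_or_ge i (lst c (pre z t) (pre z t).length).length with h1 | h1
      · have h2 := lst_get c _ _ i h1
        rw [List.getElem?_eq_getElem h1] at h2 ⊢
        have h3 := hans t i _ h2.symm
        rw [h3, pre_get y _ i h1]
      · rw [List.getElem?_eq_none h1, List.getElem?_eq_none (by rw [pre_length]; exact h1)]
    · intro n
      choose τ hτ using hans'
      refine ⟨(Finset.range n).sup τ + n, ?_⟩
      unfold psi
      rw [Denumerable.ofNat_encode]
      by_contra hlt
      rw [not_le] at hlt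
      have h1 := lst_stop c (pre z ((Finset.range n).sup τ + n))
        (pre z ((Finset.range n).sup τ + n)).length (by
          rw [pre_length] at hlt ⊢
          omega)
      refine hτ _ _ ?_ h1
      have h2 : τ (lst c (pre z ((Finset.range n).sup τ + n))
          (pre z ((Finset.range n).sup τ + n)).length).length ≤ (Finset.range n).sup τ :=
        Finset.le_sup (Finset.mem_range.2 hlt)
      omega

end Pool.Agent.Lib.MP_75b31c_lc.N40.H86
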