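import Pool.Agent.Lib.MP_75b31c_lc.N40.Iface

set_option autoImplicit false

/-!
# HCOMP: computability of the functionals `HH` and of the amplified guesses
-/

namespace Pool.Agent.Lib.MP_75b31c_lc.N40.H86

open Pool.Agent.Lib.MP_75b31c_lc.N40

/-- Finitely many computable functions give a computable list of values. -/
theorem computable_range_map {α β : Type} [Primcodable α] [Primcodable β] (r : ℕ)
    (f : ℕ → α → β) (h : ∀ j, j < r → Computable (f j)) :
    Computable fun a => (List.range r).map fun j => f j a := by
  induction r with
  | zero => exact Computable.const []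
  | succ r ih =>
    have h1 := ih fun j hj => h j (by omega)
    have h2 : Computable fun a => ((List.range r).map fun j => f j a) ++ [f r a] :=
      Computable.list_concat.comp h1 (h r (by omega))
    refine h2.of_eq fun a => ?_
    rw [List.range_succ, List.map_append]
    rfl

attribute [local irreducible] NN

theorem HH_tree (Ft Fti : ℕ → List Bool → List Bool) (Fa Fai FT : List Bool → List Bool) (n : ℕ)
    (ρ : List Bool) :
    HH Ft Fti Fa Fai FT (n + 1) ρ =
      (fun l : List (List Bool) => comb ((List.range NN).map fun j =>
        Fti j (Fai (l[j]?.getD [])))) (((List.range NN).map fun j => Fa (Ft j ρ)).map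
          (HH Ft Fti Fa Fai FT n)) := by
  rw [HH]
  beta_reduce
  congr 1
  apply List.map_congr_left
  intro j hj
  rw [List.mem_range] at hj
  simp [hj]

theorem hcomp : HCOMP_S := by
  intro hT hC hM hG Ft Fti Fa Fai FT hFt hFti hFa hFai hFT
  have hcomp2 := hC.1
  have h1 : ∀ n, IsFn (HH Ft Fti Fa Fai FT n) := by
    intro n
    induction n with
    | zero => exact hFT
    | succ n ih =>
      refine hM.2.1 NN (fun j ρ => Fti j (Fai (HH Ft Fti Fa Fai FT n (Fa (Ft j ρ))))) ?_
      intro j hj
      exact hcomp2 _ _ (hcomp2 _ _ (hcomp2 _ _ (hcomp2 _ _ (hFt j hj) hFa) ih) hFai) (hFti j hj)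
  have h2 : Computable₂ (HH Ft Fti Fa Fai FT) := by
    refine hT (List Bool) (List Bool) NN FT (fun ρ => (List.range NN).map fun j => Fa (Ft j ρ))
      (fun l => comb ((List.range NN).map fun j => Fti j (Fai (l[j]?.getD [])))) hFT.comp ?_ ?_ ?_
      (HH Ft Fti Fa Fai FT) (fun _ => rfl) (HH_tree Ft Fti Fa Fai FT)
    · exact computable_range_map NN (fun j ρ => Fa (Ft j ρ)) fun j hj =>
        hFa.comp.comp (hFt j hj).comp
    · refine hM.1.comp (computable_range_map NN (fun j (l : List (List Bool)) =>
        Fti j (Fai (l[j]?.getD []))) fun j hj => ?_)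
      refine (hFti j hj).comp.comp (hFai.comp.comp ?_)
      exact Primrec.option_getD.to_comp.comp
        (Computable.list_getElem?.comp Computable.id (Computable.const j)) (Computable.const [])
    · intro ρ
      simp
  refine ⟨h1, h2, ?_⟩
  intro k U hU
  -- the guess is computable
  have hle : Primrec fun w : ℕ × ℕ => decide (w.1 ≤ w.2) :=
    (Primrec.nat_le.comp Primrec.fst Primrec.snd).decide
  have h3 : Computable fun a : List Bool × ℕ => guess k U (HH Ft Fti Fa Fai FT) a.1 a.2 := by
    have hH : Computable fun a : List Bool × ℕ => HH Ft Fti Fa Fai FT a.2 a.1 :=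
      h2.comp Computable.snd Computable.fst
    have hc1 : Computable fun a : List Bool × ℕ => decide (k ≤ a.1.length) :=
      hle.to_comp.comp (Computable.pair (Computable.const k)
        (Computable.list_length.comp Computable.fst))
    have hc2 : Computable fun a : List Bool × ℕ =>
        decide (k ≤ (HH Ft Fti Fa Fai FT a.2 a.1).length) :=
      hle.to_comp.comp (Computable.pair (Computable.const k) (Computable.list_length.comp hH))
    have hv1 : Computable fun a : List Bool × ℕ => U (a.1.take k) :=
      hU.comp (Primrec.list_take.to_comp.comp (Computable.const k) Computable.fst)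
    have hv2 : Computable fun a : List Bool × ℕ => U ((HH Ft Fti Fa Fai FT a.2 a.1).take k) :=
      hU.comp (Primrec.list_take.to_comp.comp (Computable.const k) hH)
    have hv : Computable fun a : List Bool × ℕ => some (xor (U (a.1.take k))
        (U ((HH Ft Fti Fa Fai FT a.2 a.1).take k))) :=
      Computable.option_some.comp ((Primrec.dom_bool₂ xor).to_comp.comp hv1 hv2)
    refine (Computable.cond hc1 (Computable.cond hc2 hv (Computable.const none))
      (Computable.const none)).of_eq fun a => ?_
    unfold guess
    by_cases e1 : k ≤ a.1.length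
    · by_cases e2 : k ≤ (HH Ft Fti Fa Fai FT a.2 a.1).length
      · simp [e1, e2]
      · simp [e1, e2]
    · simp [e1]
  -- tree recursion
  have h4 : Computable₂ fun (i : ℕ) (a : List Bool × ℕ) =>
      amp Ft (guess k U (HH Ft Fti Fa Fai FT)) i a.1 a.2 := by
    refine hT (List Bool × ℕ) (Option Bool) NN
      (fun a => guess k U (HH Ft Fti Fa Fai FT) a.1 a.2)
      (fun a => (List.range NN).map fun j => (Ft j a.1, a.2)) majO h3 ?_ hG.1 ?_ _
      (fun _ => rfl) ?_
    · exact computable_range_map NN (fun j (a : List Bool × ℕ) => (Ft j a.1, a.2)) fun j hj =>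
        ((hFt j hj).comp.comp Computable.fst).pair Computable.snd
    · intro a
      simp
    · intro n a
      rw [amp, List.map_map]
      rfl
  exact h4.comp Computable.snd Computable.id

end Pool.Agent.Lib.MP_75b31c_lc.N40.H86
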