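import Pool.Agent.Lib.MP_75b31c_lc.N40.Iface

set_option autoImplicit false

/-!
# TREE: computability of tree recursion
-/

namespace Pool.Agent.Lib.MP_75b31c_lc.N40.H86

open Pool.Agent.Lib.MP_75b31c_lc.N40

section
variable {α β γ δ : Type} [Primcodable α] [Primcodable β] [Primcodable γ] [Primcodable δ]

theorem toList_primrec : Primrec (fun o : Option β => o.toList) := by
  have h : Primrec fun o : Option β => (Option.casesOn o ([] : List β) (fun b => [b]) : List β) :=
    Primrec.option_casesOn Primrec.id (Primrec.const [])
      (Primrec.list_cons.comp Primrec.snd (Primrec.const [])).to₂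
  refine h.of_eq fun o => ?_
  cases o <;> rfl

omit [Primcodable β] [Primcodable γ] in
theorem map_take_succ (l : List β) (f : β → γ) (k : ℕ) :
    (l.take (k + 1)).map f = (l.take k).map f ++ (l[k]?.map f).toList := by
  rw [List.take_add_one]
  cases l[k]? <;> simp

/-- Mapping a computable function over a computable list. -/
theorem computable_list_map {l : α → List β} {f : α → β → γ} (hl : Computable l)
    (hf : Computable₂ f) : Computable fun a => (l a).map (f a) := by
  have h1 : Computable fun w : α × (ℕ × List γ) =>
      w.2.2 ++ (((l w.1)[w.2.1]?).map (f w.1)).toList := by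
    refine Computable.list_append.comp (Computable.snd.comp Computable.snd) ?_
    refine toList_primrec.to_comp.comp ?_
    refine Computable.option_map ?_ ?_
    · exact Computable.list_getElem?.comp (hl.comp Computable.fst)
        (Computable.fst.comp Computable.snd)
    · exact (hf.comp (Computable.fst.comp Computable.fst) Computable.snd).to₂
  have h2 := Computable.nat_rec (f := fun a => (l a).length) (g := fun _ => ([] : List γ))
    (h := fun a (y : ℕ × List γ) => y.2 ++ (((l a)[y.1]?).map (f a)).toList)
    (Computable.list_length.comp hl) (Computable.const []) h1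
  refine h2.of_eq fun a => ?_
  have h3 : ∀ k, (Nat.rec ([] : List γ) (fun y IH => (y, IH).2 ++ (((l a)[(y, IH).1]?).map (f a)).toList) k
      : List γ) = ((l a).take k).map (f a) := by
    intro k
    induction k with
    | zero => simp
    | succ k ih =>
      rw [map_take_succ, ← ih]
  rw [h3, List.take_length]

omit [Primcodable β] [Primcodable γ] in
theorem chunk_eq (N : ℕ) (up : List β → γ) (LL : List (List β)) (h : ∀ l ∈ LL, l.length = N) :
    (List.range LL.length).map (fun k => up ((LL.flatten.drop (k * N)).take N)) = LL.map up := by
  induction LL with
  | nil => rfl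
  | cons l LL ih =>
    have hl : l.length = N := h l (by simp)
    have ih' := ih (fun l' hl' => h l' (by simp [hl']))
    rw [List.length_cons, List.range_succ_eq_map, List.map_cons, List.map_map, List.map_cons]
    congr 1
    · simp [← hl]
    · rw [← ih']
      apply List.map_congr_left
      intro k _
      simp only [Function.comp_apply, List.flatten_cons]
      have e : (k + 1) * N = l.length + k * N := by rw [hl]; ring
      rw [Nat.succ_eq_add_one, e, ← List.drop_drop, List.drop_left]

/-- The nodes of level `n` below `a`. -/
def lev (down : α → List α) (a : α) (n : ℕ) : List α :=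
  n.rec [a] fun _ acc => (acc.map down).flatten

theorem lev_computable {down : α → List α} (hd : Computable down) :
    Computable₂ (lev down) := by
  have h1 : Computable fun w : (α × ℕ) × (ℕ × List α) => (w.2.2.map down).flatten :=
    Primrec.list_flatten.to_comp.comp
      (computable_list_map (Computable.snd.comp Computable.snd) (hd.comp Computable.snd).to₂)
  exact Computable.nat_rec (f := fun a : α × ℕ => a.2) (g := fun a => [a.1])
    (h := fun _ (y : ℕ × List α) => (y.2.map down).flatten) Computable.snd
    (Computable.list_cons.comp Computable.fst (Computable.const [])) h1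

/-- One step upwards. -/
def upl (N : ℕ) (up : List β → β) (c : ℕ) (V : List β) : List β :=
  (List.range c).map fun k => up ((V.drop (k * N)).take N)

theorem upl_computable (N : ℕ) {up : List β → β} (hu : Computable up) :
    Computable₂ (upl N up) := by
  refine computable_list_map (l := fun a : ℕ × List β => List.range a.1)
    (f := fun a k => up ((a.2.drop (k * N)).take N)) ?_ ?_
  · exact Primrec.list_range.to_comp.comp Computable.fst
  · refine hu.comp ?_
    have h : Primrec fun w : (ℕ × List β) × ℕ => (w.1.2.drop (w.2 * N)).take N :=
      Primrec.list_take.comp (Primrec.const N)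
        (Primrec.list_drop.comp (Primrec.nat_mul.comp Primrec.snd (Primrec.const N))
          (Primrec.snd.comp Primrec.fst))
    exact h.to_comp

/-- The values on the nodes of level `n - s`. -/
def vals (N : ℕ) (leaf : α → β) (down : α → List α) (up : List β → β) (a : α) (n s : ℕ) : List β :=
  s.rec ((lev down a n).map leaf) fun s acc => upl N up (lev down a (n - s - 1)).length acc

theorem vals_computable (N : ℕ) {leaf : α → β} {down : α → List α} {up : List β → β}
    (hl : Computable leaf) (hd : Computable down) (hu : Computable up) :
    Computable fun p : ℕ × α => vals N leaf down up p.2 p.1 p.1 := by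
  have h0 : Computable fun p : ℕ × α => (lev down p.2 p.1).map leaf :=
    computable_list_map ((lev_computable hd).comp Computable.snd Computable.fst)
      (hl.comp Computable.snd).to₂
  have h1 : Computable fun w : (ℕ × α) × (ℕ × List β) =>
      upl N up (lev down w.1.2 (w.1.1 - w.2.1 - 1)).length w.2.2 := by
    refine (upl_computable N hu).comp (Computable.list_length.comp ((lev_computable hd).comp
      (Computable.snd.comp Computable.fst) ?_)) (Computable.snd.comp Computable.snd)
    have h : Primrec fun w : (ℕ × α) × (ℕ × List β) => w.1.1 - w.2.1 - 1 :=
      Primrec.nat_sub.comp (Primrec.nat_sub.comp (Primrec.fst.comp Primrec.fst)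
        (Primrec.fst.comp Primrec.snd)) (Primrec.const 1)
    exact h.to_comp
  exact Computable.nat_rec (f := fun p : ℕ × α => p.1)
    (g := fun p => (lev down p.2 p.1).map leaf)
    (h := fun p (y : ℕ × List β) => upl N up (lev down p.2 (p.1 - y.1 - 1)).length y.2)
    Computable.fst h0 h1

omit [Primcodable α] [Primcodable β] in
theorem vals_eq (N : ℕ) {leaf : α → β} {down : α → List α} {up : List β → β}
    (hN : ∀ a, (down a).length = N) {R : ℕ → α → β} (h0 : ∀ a, R 0 a = leaf a)
    (h1 : ∀ n a, R (n + 1) a = up ((down a).map (R n))) (a : α) (n s : ℕ) (hs : s ≤ n) :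
    vals N leaf down up a n s = (lev down a (n - s)).map (R s) := by
  induction s with
  | zero =>
    change (lev down a n).map leaf = _
    apply List.map_congr_left
    intro b _
    exact (h0 b).symm
  | succ s ih =>
    change upl N up (lev down a (n - s - 1)).length (vals N leaf down up a n s) = _
    rw [ih (by omega)]
    obtain ⟨m, hm⟩ : ∃ m, n - s = m + 1 := ⟨n - s - 1, by omega⟩
    rw [hm, show n - (s + 1) = m by omega, Nat.add_sub_cancel]
    change upl N up (lev down a m).length ((((lev down a m).map down).flatten).map (R s)) = _
    rw [List.map_flatten, List.map_map]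
    have h2 := chunk_eq N up ((lev down a m).map (List.map (R s) ∘ down)) (by
      intro l hl
      rw [List.mem_map] at hl
      obtain ⟨b, _, rfl⟩ := hl
      simp [hN])
    rw [List.length_map, List.map_map] at h2
    unfold upl
    rw [h2]
    apply List.map_congr_left
    intro b _
    exact (h1 s b).symm

end

theorem tree : TREE_S := by
  intro α β _ _ N leaf down up hl hd hu hN R h0 h1
  have h2 : Computable fun p : ℕ × α => (vals N leaf down up p.2 p.1 p.1)[0]? :=
    Computable.list_getElem?.comp (vals_computable N hl hd hu) (Computable.const 0)
  have h3 : Computable fun p : ℕ × α => Option.some (R p.1 p.2) := by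
    refine h2.of_eq fun p => ?_
    rw [vals_eq N hN h0 h1 p.2 p.1 p.1 le_rfl, Nat.sub_self]
    rfl
  exact Computable.option_some_iff.1 h3

end Pool.Agent.Lib.MP_75b31c_lc.N40.H86
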