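import Pool.Agent.Lib.MP_75b31c_lc.N40.Iface

set_option autoImplicit false

/-!
# ERR: error correction
-/

namespace Pool.Agent.Lib.MP_75b31c_lc.N40.H86

open MeasureTheory
open Pool.Agent.Lib.MP_75b31c_lc.N40

theorem cnt_le_of {N : ℕ} {P Q : ℕ → Prop} (h : ∀ j, j < N → P j → Q j) : cnt N P ≤ cnt N Q := by
  classical
  unfold cnt
  apply Finset.card_le_card
  intro j hj
  rw [Finset.mem_filter, Finset.mem_range] at hj ⊢
  exact ⟨hj.1, h j hj.1 hj.2⟩

theorem cnt_or' {N : ℕ} (R P Q : ℕ → Prop) (hR : ∀ j, R j → P j ∨ Q j) :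
    cnt N R ≤ cnt N P + cnt N Q := by
  classical
  unfold cnt
  refine le_trans (Finset.card_le_card ?_) (Finset.card_union_le _ _)
  intro j hj
  have hj' := Finset.mem_filter.1 hj
  rcases hR j hj'.2 with h | h
  · exact Finset.mem_union_left _ (Finset.mem_filter.2 ⟨hj'.1, h⟩)
  · exact Finset.mem_union_right _ (Finset.mem_filter.2 ⟨hj'.1, h⟩)

theorem cnt_or {N : ℕ} (P Q : ℕ → Prop) : cnt N (fun j => P j ∨ Q j) ≤ cnt N P + cnt N Q :=
  cnt_or' _ P Q fun _ h => h

theorem cnt_all {N : ℕ} {P : ℕ → Prop} (h : ∀ j, j < N → P j) : cnt N P = N := by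
  classical
  unfold cnt
  rw [Finset.filter_true_of_mem (fun j hj => h j (Finset.mem_range.1 hj)), Finset.card_range]

theorem cnt_four {N : ℕ} {P Q R S : ℕ → Prop} (h : ∀ j, j < N → P j ∨ Q j ∨ R j ∨ S j) :
    N ≤ cnt N P + cnt N Q + cnt N R + cnt N S := by
  have h1 := cnt_or (N := N) R S
  have h2 := cnt_or (N := N) Q (fun j => R j ∨ S j)
  have h3 := cnt_or (N := N) P (fun j => Q j ∨ R j ∨ S j)
  rw [cnt_all h] at h3
  omega

theorem real_preimage {X : Type} [MeasurableSpace X] {μ : Measure X} {s : X → X}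
    (hs : MeasurePreserving s μ μ) {B : Set X} (hB : MeasurableSet B) :
    μ.real (s ⁻¹' B) = μ.real B := by
  unfold Measure.real
  rw [hs.measure_preimage hB.nullMeasurableSet]

attribute [local irreducible] NN

theorem err_num (b : ℝ) (hb0 : 0 ≤ b) (hb : b ≤ 52 * qq) :
    b < 1 / 3 ∧ 16 * b / ((16384 : ℝ) * (1 / 3 - b) ^ 2) ≤ qq := by
  unfold qq at *
  have h1 : b ≤ 1 / 12 := hb.trans (by norm_num)
  refine ⟨by linarith, ?_⟩
  have h2 : (1 / 16 : ℝ) ≤ (1 / 3 - b) ^ 2 := by nlinarith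
  have h3 : (0 : ℝ) < 16384 * (1 / 3 - b) ^ 2 := by linarith
  rw [div_le_iff₀ h3]
  nlinarith

theorem err : ERR_S := by
  intro hMark hMeas hC hMaj hHC hT hG X _ μ _ D h hh Ft Fti Fa Fai FT hFt hFti hFa hFai hFT
    eFt eFti eFa eFai eFT
  obtain ⟨hfn, _, _⟩ := hHC hT hC hMaj hG Ft Fti Fa Fai FT hFt hFti hFa hFai hFT
  have hbad : ∀ (φ : List Bool → List Bool) (s : X → X), Measurable s →
      MeasurableSet {x | ¬ Cmp φ (h x) (h (s x))} := by
    intro φ s hs
    have h1 : Measurable fun x => (h x, h (s x)) := hh.prodMk (hh.comp hs)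
    exact (h1 (hMeas.1 φ)).compl
  intro n
  induction n with
  | zero =>
    refine le_trans eFT ?_
    unfold qq
    norm_num
  | succ n ih =>
    -- the sets
    obtain ⟨B', hB'⟩ : ∃ B' : Set X, B' = {x | ¬ Cmp Fa (h x) (h (D.a x))} ∪
        (D.a ⁻¹' {x | ¬ Cmp (HH Ft Fti Fa Fai FT n) (h x) (h (D.w n x))} ∪
          (fun x => D.w n (D.a x)) ⁻¹' {x | ¬ Cmp Fai (h x) (h (D.ai x))}) := ⟨_, rfl⟩
    have mB1 := hbad Fa D.a D.ma.measurable
    have mB2 := hbad (HH Ft Fti Fa Fai FT n) (D.w n) (D.mw n).measurable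
    have mB3 := hbad Fai D.ai D.mai.measurable
    have hwa : MeasurePreserving (fun x => D.w n (D.a x)) μ μ := (D.mw n).comp D.ma
    have mB' : MeasurableSet B' := by
      rw [hB']
      exact mB1.union ((D.ma.measurable mB2).union (hwa.measurable mB3))
    have eB' : μ.real B' ≤ 52 * qq := by
      rw [hB']
      refine (measureReal_union_le _ _).trans ?_
      have h2 := measureReal_union_le (μ := μ)
        (D.a ⁻¹' {x | ¬ Cmp (HH Ft Fti Fa Fai FT n) (h x) (h (D.w n x))})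
        ((fun x => D.w n (D.a x)) ⁻¹' {x | ¬ Cmp Fai (h x) (h (D.ai x))})
      rw [real_preimage D.ma mB2, real_preimage hwa mB3] at h2
      linarith
    have mC : ∀ j, MeasurableSet ((fun x => D.t j (D.w (n + 1) x)) ⁻¹'
        {x | ¬ Cmp (Fti j) (h x) (h (D.ti j x))}) := fun j =>
      ((D.mt j).comp (D.mw (n + 1))).measurable (hbad (Fti j) (D.ti j) (D.mti j).measurable)
    have eC : ∀ j, j < NN → μ.real ((fun x => D.t j (D.w (n + 1) x)) ⁻¹'
        {x | ¬ Cmp (Fti j) (h x) (h (D.ti j x))}) ≤ qq := by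
      intro j hj
      have h3 := real_preimage ((D.mt j).comp (D.mw (n + 1)))
        (hbad (Fti j) (D.ti j) (D.mti j).measurable)
      exact h3.le.trans (eFti j hj)
    have m1 := hMark X μ (fun j => {x | ¬ Cmp (Ft j) (h x) (h (D.t j x))})
      (fun j => hbad (Ft j) (D.t j) (D.mt j).measurable) qq eFt (1 / 12) (by norm_num)
    have m2 := hMark X μ (fun j => (fun x => D.t j (D.w (n + 1) x)) ⁻¹'
        {x | ¬ Cmp (Fti j) (h x) (h (D.ti j x))}) mC qq eC (1 / 12) (by norm_num)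
    obtain ⟨hb3, hb4⟩ := err_num (μ.real B') measureReal_nonneg eB'
    have m3 := D.var B' mB' (1 / 3) hb3
    have hNN : (NN : ℝ) = 16384 := by
      unfold NN
      norm_num
    rw [hNN] at m3
    -- inclusion
    have hsub : {x | ¬ Cmp (HH Ft Fti Fa Fai FT (n + 1)) (h x) (h (D.w (n + 1) x))} ⊆
        {x | 1 / 12 * (NN : ℝ) ≤ cnt NN (fun j => x ∈ {x | ¬ Cmp (Ft j) (h x) (h (D.t j x))})} ∪
        ({x | 1 / 12 * (NN : ℝ) ≤ cnt NN (fun j => x ∈ (fun x => D.t j (D.w (n + 1) x)) ⁻¹'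
          {x | ¬ Cmp (Fti j) (h x) (h (D.ti j x))})} ∪
        {x | 1 / 3 * (16384 : ℝ) ≤ cnt NN (fun j => D.t j x ∈ B')}) := by
      intro x hx
      by_contra hno
      simp only [Set.mem_union, not_or] at hno
      obtain ⟨h1, h2, h3⟩ := hno
      apply hx
      have h4 := cnt_four (N := NN)
        (P := fun j => Cmp (fun ρ => Fti j (Fai (HH Ft Fti Fa Fai FT n (Fa (Ft j ρ))))) (h x)
          (h (D.w (n + 1) x)))
        (Q := fun j => x ∈ {x | ¬ Cmp (Ft j) (h x) (h (D.t j x))})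
        (R := fun j => x ∈ (fun x => D.t j (D.w (n + 1) x)) ⁻¹'
          {x | ¬ Cmp (Fti j) (h x) (h (D.ti j x))})
        (S := fun j => D.t j x ∈ B') (by
          intro j hj
          by_cases hQ : x ∈ {x | ¬ Cmp (Ft j) (h x) (h (D.t j x))}
          · exact Or.inr (Or.inl hQ)
          by_cases hR : x ∈ (fun x => D.t j (D.w (n + 1) x)) ⁻¹'
              {x | ¬ Cmp (Fti j) (h x) (h (D.ti j x))}
          · exact Or.inr (Or.inr (Or.inl hR))
          by_cases hS : D.t j x ∈ B'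
          · exact Or.inr (Or.inr (Or.inr hS))
          left
          rw [hB'] at hS
          simp only [Set.mem_union, not_or] at hS
          obtain ⟨s1, s2, s3⟩ := hS
          have q1 : Cmp (Ft j) (h x) (h (D.t j x)) := not_not.1 hQ
          have q2 : Cmp (Fti j) (h (D.t j (D.w (n + 1) x)))
            (h (D.ti j (D.t j (D.w (n + 1) x)))) := not_not.1 hR
          have q3 : Cmp Fa (h (D.t j x)) (h (D.a (D.t j x))) := not_not.1 s1
          have q4 : Cmp (HH Ft Fti Fa Fai FT n) (h (D.a (D.t j x)))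
            (h (D.w n (D.a (D.t j x)))) := not_not.1 s2
          have q5 : Cmp Fai (h (D.w n (D.a (D.t j x)))) (h (D.ai (D.w n (D.a (D.t j x))))) :=
            not_not.1 s3
          rw [← D.w_succ, D.comm] at q5
          rw [D.ti_t] at q2
          have i1 := hC.1 _ _ (hFt j hj) hFa
          have c1 := hC.2.1 _ _ _ _ _ (hFt j hj) hFa q1 q3
          have i2 := hC.1 _ _ i1 (hfn n)
          have c2 := hC.2.1 _ _ _ _ _ i1 (hfn n) c1 q4
          have i3 := hC.1 _ _ i2 hFai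
          have c3 := hC.2.1 _ _ _ _ _ i2 hFai c2 q5
          exact hC.2.1 _ _ _ _ _ i3 (hFti j hj) c3 q2)
      have hgood : NN < 2 * cnt NN (fun j => Cmp (fun ρ => Fti j (Fai (HH Ft Fti Fa Fai FT n
          (Fa (Ft j ρ))))) (h x) (h (D.w (n + 1) x))) := by
        have h4' : (NN : ℝ) ≤ cnt NN (fun j => Cmp (fun ρ => Fti j (Fai (HH Ft Fti Fa Fai FT n
          (Fa (Ft j ρ))))) (h x) (h (D.w (n + 1) x))) +
          cnt NN (fun j => x ∈ {x | ¬ Cmp (Ft j) (h x) (h (D.t j x))}) +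
          cnt NN (fun j => x ∈ (fun x => D.t j (D.w (n + 1) x)) ⁻¹'
            {x | ¬ Cmp (Fti j) (h x) (h (D.ti j x))}) +
          cnt NN (fun j => D.t j x ∈ B') := by exact_mod_cast h4
        simp only [Set.mem_ofPred_eq, not_le] at h1 h2 h3
        have h5 : (NN : ℝ) < 2 * (cnt NN (fun j => Cmp (fun ρ => Fti j (Fai (HH Ft Fti Fa Fai FT n
          (Fa (Ft j ρ))))) (h x) (h (D.w (n + 1) x))) : ℝ) := by
          simp only [Set.mem_ofPred_eq] at h4'
          rw [hNN] at *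
          linarith
        exact_mod_cast h5
      exact hMaj.2.2 NN _ _ _ (fun j hj => hC.1 _ _ (hC.1 _ _ (hC.1 _ _ (hC.1 _ _ (hFt j hj) hFa)
        (hfn n)) hFai) (hFti j hj)) hgood
    refine (measureReal_mono hsub).trans ?_
    refine (measureReal_union_le _ _).trans ?_
    have h6 := measureReal_union_le (μ := μ) ({x | 1 / 12 * (NN : ℝ) ≤ cnt NN (fun j => x ∈
      (fun x => D.t j (D.w (n + 1) x)) ⁻¹' {x | ¬ Cmp (Fti j) (h x) (h (D.ti j x))})})
      {x | 1 / 3 * (16384 : ℝ) ≤ cnt NN (fun j => D.t j x ∈ B')}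
    have h7 := m1.1
    have h8 := m2.1
    have hq0 : 0 < qq := by
      unfold qq
      norm_num
    linarith

end Pool.Agent.Lib.MP_75b31c_lc.N40.H86
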